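import Pool.Agent.Y516.OJ.Stm

/-! OJ-TEN: tensorisation of a bilinear inequality (helper459). -/

set_option autoImplicit false

namespace Pool.Agent.Y459.OJ.Ten

open Finset Pool.Agent.Y516.OJ

theorem sum_cons {A M : Type} [Fintype A] [AddCommMonoid M] (u : ℕ) (F : (Fin (u + 1) → A) → M) :
    ∑ x, F x = ∑ a, ∑ x : Fin u → A, F (Fin.cons a x) := by
  rw [← (Fin.consEquiv fun _ => A).sum_comp, Fintype.sum_prod_type]
  rfl

theorem root_pow {y p : ℝ} (hy : 0 ≤ y) (hp : 1 ≤ p) : (y ^ (1 / p)) ^ p = y := by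
  rw [← Real.rpow_mul hy, one_div_mul_cancel (by linarith), Real.rpow_one]

theorem pow_root {y p : ℝ} (hy : 0 ≤ y) (hp : 1 ≤ p) : (y ^ p) ^ (1 / p) = y := by
  rw [← Real.rpow_mul hy, mul_one_div_cancel (by linarith), Real.rpow_one]

theorem ten : TenStm := by
  intro A B _ _ P Q K p c hP hQ hK hp hc H u
  induction u with
  | zero =>
    intro f g hf hg
    simp only [univ_unique, sum_singleton, univ_eq_empty, prod_empty, one_mul, mul_one, pow_zero]
    rw [pow_root (hf _) hp, pow_root (hg _) hp]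
  | succ u ih =>
    intro f g hf hg
    set φ : A → ℝ := fun a => (∑ x : Fin u → A, (∏ e, P (x e)) * f (Fin.cons a x) ^ p) ^ (1 / p)
      with hφ
    set ψ : B → ℝ := fun b => (∑ y : Fin u → B, (∏ e, Q (y e)) * g (Fin.cons b y) ^ p) ^ (1 / p)
      with hψ
    have hφi : ∀ a, 0 ≤ ∑ x : Fin u → A, (∏ e, P (x e)) * f (Fin.cons a x) ^ p := fun a =>
      sum_nonneg fun x _ => mul_nonneg (prod_nonneg fun e _ => hP _) (Real.rpow_nonneg (hf _) _)
    have hψi : ∀ b, 0 ≤ ∑ y : Fin u → B, (∏ e, Q (y e)) * g (Fin.cons b y) ^ p := fun b =>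
      sum_nonneg fun x _ => mul_nonneg (prod_nonneg fun e _ => hQ _) (Real.rpow_nonneg (hg _) _)
    have hφ0 : ∀ a, 0 ≤ φ a := fun a => Real.rpow_nonneg (hφi a) _
    have hψ0 : ∀ b, 0 ≤ ψ b := fun b => Real.rpow_nonneg (hψi b) _
    have e1 : ∑ x : Fin (u + 1) → A, (∏ e, P (x e)) * f x ^ p = ∑ a, P a * φ a ^ p := by
      rw [sum_cons]
      refine sum_congr rfl fun a _ => ?_
      rw [hφ]
      simp only
      rw [root_pow (hφi a) hp, mul_sum]
      refine sum_congr rfl fun x _ => ?_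
      rw [Fin.prod_univ_succ]
      simp only [Fin.cons_zero, Fin.cons_succ]
      ring
    have e2 : ∑ y : Fin (u + 1) → B, (∏ e, Q (y e)) * g y ^ p = ∑ b, Q b * ψ b ^ p := by
      rw [sum_cons]
      refine sum_congr rfl fun b _ => ?_
      rw [hψ]
      simp only
      rw [root_pow (hψi b) hp, mul_sum]
      refine sum_congr rfl fun x _ => ?_
      rw [Fin.prod_univ_succ]
      simp only [Fin.cons_zero, Fin.cons_succ]
      ring
    rw [e1, e2]
    calc ∑ x : Fin (u + 1) → A, ∑ y : Fin (u + 1) → B,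
          (∏ e, P (x e)) * (∏ e, Q (y e)) * (f x * g y * ∏ e, K (x e) (y e))
        = ∑ a, ∑ b, P a * Q b * K a b * ∑ x : Fin u → A, ∑ y : Fin u → B,
          (∏ e, P (x e)) * (∏ e, Q (y e)) *
            (f (Fin.cons a x) * g (Fin.cons b y) * ∏ e, K (x e) (y e)) := by
          rw [sum_cons]
          refine sum_congr rfl fun a _ => ?_
          simp only [sum_cons (A := B)]
          rw [sum_comm]
          refine sum_congr rfl fun b _ => ?_
          rw [mul_sum]
          refine sum_congr rfl fun x _ => ?_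
          rw [mul_sum]
          refine sum_congr rfl fun y _ => ?_
          simp only [Fin.prod_univ_succ, Fin.cons_zero, Fin.cons_succ]
          ring
      _ ≤ ∑ a, ∑ b, P a * Q b * K a b * (c ^ u * (φ a * ψ b)) := by
          refine sum_le_sum fun a _ => sum_le_sum fun b _ => ?_
          exact mul_le_mul_of_nonneg_left (ih (fun x => f (Fin.cons a x))
            (fun y => g (Fin.cons b y)) (fun x => hf _) fun y => hg _)
            (mul_nonneg (mul_nonneg (hP a) (hQ b)) (hK a b))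
      _ = c ^ u * ∑ a, ∑ b, P a * Q b * (φ a * ψ b * K a b) := by
          rw [mul_sum]
          refine sum_congr rfl fun a _ => ?_
          rw [mul_sum]
          refine sum_congr rfl fun b _ => ?_
          ring
      _ ≤ c ^ u * (c * ((∑ a, P a * φ a ^ p) ^ (1 / p) * (∑ b, Q b * ψ b ^ p) ^ (1 / p))) :=
          mul_le_mul_of_nonneg_left (H φ ψ hφ0 hψ0) (pow_nonneg hc u)
      _ = c ^ (u + 1) * ((∑ a, P a * φ a ^ p) ^ (1 / p) * (∑ b, Q b * ψ b ^ p) ^ (1 / p)) := by
          rw [pow_succ]; ring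

end Pool.Agent.Y459.OJ.Ten
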